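import Pool.Agent.Y208.BH.Stm2

/-!
# BH-FPO: finitely presented algebras over the field with two elements, opposite algebras
-/

set_option autoImplicit false

open scoped TensorProduct

namespace Y88.BH

open Pool.SF Y208.LQ Y208.BH MulOpposite

theorem fpa_of_finPres (R : Type) [Ring R] [Algebra (ZMod 2) R] (h : FinPres (ZMod 2) R) :
    FPA R := by
  obtain ⟨n, T, ⟨e⟩⟩ := h
  refine ⟨n, (AlgHomClass.toAlgHom e.symm).comp (RingQuot.mkAlgHom (ZMod 2)
    (fun p q : FreeAlgebra (ZMod 2) (Fin n) => p ∈ T ∧ q = 0)), T, ?_, ?_⟩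
  · intro r
    obtain ⟨p, hp⟩ := RingQuot.mkAlgHom_surjective (ZMod 2)
      (fun p q : FreeAlgebra (ZMod 2) (Fin n) => p ∈ T ∧ q = 0) (e r)
    exact ⟨p, by simp [hp]⟩
  · intro p
    have key : RingQuot.mkAlgHom (ZMod 2)
        (fun p q : FreeAlgebra (ZMod 2) (Fin n) => p ∈ T ∧ q = 0) p = 0 ↔
        p ∈ TwoSidedIdeal.span (T : Set (FreeAlgebra (ZMod 2) (Fin n))) := by
      constructor
      · intro hp
        set I := TwoSidedIdeal.span (T : Set (FreeAlgebra (ZMod 2) (Fin n))) with hI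
        have h1 : ∀ ⦃x y : FreeAlgebra (ZMod 2) (Fin n)⦄, (x ∈ T ∧ y = 0) →
            (I.ringCon.mk' x) = I.ringCon.mk' y := by
          rintro x y ⟨hx, rfl⟩
          have h2 : x ∈ I := TwoSidedIdeal.subset_span hx
          exact (RingCon.eq I.ringCon).2 (by simpa [TwoSidedIdeal.mem_iff] using h2)
        have h3 := RingQuot.lift_mkRingHom_apply (r := fun p q : FreeAlgebra (ZMod 2) (Fin n) =>
          p ∈ T ∧ q = 0) I.ringCon.mk' h1 p
        have h4 : RingQuot.mkRingHom
            (fun p q : FreeAlgebra (ZMod 2) (Fin n) => p ∈ T ∧ q = 0) p = 0 := by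
          rw [← RingQuot.mkAlgHom_coe (ZMod 2)]
          exact hp
        rw [h4, map_zero] at h3
        have h5 : I.ringCon.mk' p = I.ringCon.mk' 0 := by rw [← h3, map_zero]
        have h6 := (RingCon.eq I.ringCon).1 h5
        rw [TwoSidedIdeal.mem_iff]
        exact h6
      · intro hp
        have h1 : TwoSidedIdeal.span (T : Set (FreeAlgebra (ZMod 2) (Fin n))) ≤
            TwoSidedIdeal.ker (RingQuot.mkAlgHom (ZMod 2)
              (fun p q : FreeAlgebra (ZMod 2) (Fin n) => p ∈ T ∧ q = 0)) := by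
          rw [TwoSidedIdeal.span_le]
          intro x hx
          rw [SetLike.mem_coe, TwoSidedIdeal.mem_ker]
          have h3 := RingQuot.mkAlgHom_rel (ZMod 2)
            (s := fun p q : FreeAlgebra (ZMod 2) (Fin n) => p ∈ T ∧ q = 0) (x := x) (y := 0)
            ⟨hx, rfl⟩
          rw [map_zero] at h3
          exact h3
        exact (TwoSidedIdeal.mem_ker _).1 (h1 hp)
    rw [← key, AlgHom.comp_apply]
    exact map_eq_zero_iff e.symm e.symm.injective

section op
variable {F X : Type} [Field F]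

/-- the reversal of words -/
noncomputable def rev (F X : Type) [Field F] :
    FreeAlgebra F X →ₐ[F] (FreeAlgebra F X)ᵐᵒᵖ :=
  FreeAlgebra.lift F (fun i => op (FreeAlgebra.ι F i))

theorem rev_ι (i : X) : rev F X (FreeAlgebra.ι F i) = op (FreeAlgebra.ι F i) :=
  FreeAlgebra.lift_ι_apply _ _

theorem lift_rev {B : Type} [Ring B] [Algebra F B] (f : FreeAlgebra F X →ₐ[F] B)
    (p : FreeAlgebra F X) :
    FreeAlgebra.lift F (fun i => op (f (FreeAlgebra.ι F i))) p = op (f (unop (rev F X p))) := by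
  have : FreeAlgebra.lift F (fun i => op (f (FreeAlgebra.ι F i))) =
      (AlgHom.op f).comp (rev F X) := by
    apply FreeAlgebra.hom_ext
    funext i
    simp [rev_ι]
  rw [this]
  rfl

theorem rev_rev (p : FreeAlgebra F X) : unop (rev F X (unop (rev F X p))) = p := by
  have h1 := lift_rev (AlgHom.id F (FreeAlgebra F X)) p
  have h2 : (AlgHom.opComm (rev F X)).comp (rev F X) = (AlgHom.id F (FreeAlgebra F X)) := by
    apply FreeAlgebra.hom_ext
    funext i
    simp [rev_ι, AlgHom.opComm]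
  exact DFunLike.congr_fun h2 p

open Classical in
theorem finPres_op (R : Type) [Ring R] [Algebra F R] (h : FinPres F R) : FinPres F Rᵐᵒᵖ := by
  obtain ⟨n, T, ⟨e⟩⟩ := h
  let rel : FreeAlgebra F (Fin n) → FreeAlgebra F (Fin n) → Prop := fun p q => p ∈ T ∧ q = 0
  let T' : Finset (FreeAlgebra F (Fin n)) := T.image (fun p => unop (rev F (Fin n) p))
  let rel' : FreeAlgebra F (Fin n) → FreeAlgebra F (Fin n) → Prop := fun p q => p ∈ T' ∧ q = 0
  have h1 : ∀ ⦃x y : FreeAlgebra F (Fin n)⦄, rel x y →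
      FreeAlgebra.lift F (fun i => op (RingQuot.mkAlgHom F rel' (FreeAlgebra.ι F i))) x =
      FreeAlgebra.lift F (fun i => op (RingQuot.mkAlgHom F rel' (FreeAlgebra.ι F i))) y := by
    rintro x y ⟨hx, rfl⟩
    rw [lift_rev, map_zero]
    have h3 := RingQuot.mkAlgHom_rel F (s := rel') (x := unop (rev F (Fin n) x)) (y := 0)
      ⟨Finset.mem_image_of_mem _ hx, rfl⟩
    rw [h3, map_zero]
    rfl
  have h2 : ∀ ⦃x y : FreeAlgebra F (Fin n)⦄, rel' x y →
      FreeAlgebra.lift F (fun i => op (RingQuot.mkAlgHom F rel (FreeAlgebra.ι F i))) x =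
      FreeAlgebra.lift F (fun i => op (RingQuot.mkAlgHom F rel (FreeAlgebra.ι F i))) y := by
    rintro x y ⟨hx, rfl⟩
    rw [lift_rev, map_zero]
    obtain ⟨p, hp, rfl⟩ := Finset.mem_image.1 hx
    rw [rev_rev]
    have h3 := RingQuot.mkAlgHom_rel F (s := rel) (x := p) (y := 0) ⟨hp, rfl⟩
    rw [h3, map_zero]
    rfl
  let f1 : RingQuot rel →ₐ[F] (RingQuot rel')ᵐᵒᵖ := RingQuot.liftAlgHom F ⟨_, h1⟩
  let g1 : RingQuot rel' →ₐ[F] (RingQuot rel)ᵐᵒᵖ := RingQuot.liftAlgHom F ⟨_, h2⟩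
  have hf : ∀ i, f1 (RingQuot.mkAlgHom F rel (FreeAlgebra.ι F i)) =
      op (RingQuot.mkAlgHom F rel' (FreeAlgebra.ι F i)) := by
    intro i
    simp only [f1, RingQuot.liftAlgHom_mkAlgHom_apply, FreeAlgebra.lift_ι_apply]
  have hg : ∀ i, g1 (RingQuot.mkAlgHom F rel' (FreeAlgebra.ι F i)) =
      op (RingQuot.mkAlgHom F rel (FreeAlgebra.ι F i)) := by
    intro i
    simp only [g1, RingQuot.liftAlgHom_mkAlgHom_apply, FreeAlgebra.lift_ι_apply]
  have e1 : (AlgHom.opComm f1).comp g1 = AlgHom.id F (RingQuot rel') := by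
    apply RingQuot.ringQuot_ext'
    apply FreeAlgebra.hom_ext
    funext i
    have : AlgHom.opComm f1 (g1 (RingQuot.mkAlgHom F rel' (FreeAlgebra.ι F i))) =
        RingQuot.mkAlgHom F rel' (FreeAlgebra.ι F i) := by
      rw [hg]
      exact congrArg unop (hf i)
    simpa using this
  have e2 : (AlgHom.opComm g1).comp f1 = AlgHom.id F (RingQuot rel) := by
    apply RingQuot.ringQuot_ext'
    apply FreeAlgebra.hom_ext
    funext i
    have : AlgHom.opComm g1 (f1 (RingQuot.mkAlgHom F rel (FreeAlgebra.ι F i))) =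
        RingQuot.mkAlgHom F rel (FreeAlgebra.ι F i) := by
      rw [hf]
      exact congrArg unop (hg i)
    simpa using this
  have e2' : ∀ x : (RingQuot rel)ᵐᵒᵖ, g1 (AlgHom.opComm f1 x) = x := by
    intro x
    have := DFunLike.congr_fun e2 (unop x)
    exact congrArg op this
  refine ⟨n, T', ⟨(AlgEquiv.op e).trans ?_⟩⟩
  exact AlgEquiv.ofAlgHom (AlgHom.opComm f1) g1 e1 (AlgHom.ext e2')

end op

theorem t_FPO : Y208.BH.S_FPO :=
  ⟨fun R _ _ h => fpa_of_finPres R h, fun R _ _ h => finPres_op R h⟩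

end Y88.BH
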